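import Pool.Agent.Helper42.VR.Main

/-!
# The question holds outside a window of logarithmic length
-/

set_option autoImplicit false

namespace Pool.Agent.Results.MP_678251_co.LogWindow

open Pool.Agent.Helper42.VR

/-- The least `n ≥ 1` for which `f_n : VR(Q_n; r) → [0, 1]ⁿ` is not surjective. -/
noncomputable def leastN (r : ℝ) : ℕ := sInf {n | 1 ≤ n ∧ ¬ Surj n r}

theorem not_surj {n : ℕ} (hn : 1 ≤ n) {r : ℝ} (hr : r < ((n : ℝ) + 1) / 2) : ¬ Surj n r := by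
  intro h
  exact not_centerCovered hn hr (h _ fun _ => by norm_num)

/-- For `n ≥ 1` the center is not in the image for `r < (n + 1) / 2`, and `f_n` is surjective for
`r ≥ n / 2 + 810 log (n + 1)`; hence `2 r - 1620 log (2 r + 1) < n(r) ≤ 2 r` for all integers
`r ≥ 1`, where `n(r)` is the least `n` for which `f_n` is not surjective. -/
theorem result :
    (∀ n : ℕ, 1 ≤ n → ∀ r : ℝ, r < ((n : ℝ) + 1) / 2 → ¬ CenterCovered n r) ∧
    (∀ n : ℕ, 1 ≤ n → ∀ r : ℝ, (n : ℝ) / 2 + 810 * Real.log (n + 1) ≤ r → Surj n r) ∧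
    (∀ r : ℕ, 1 ≤ r → (1 ≤ leastN r ∧ ¬ Surj (leastN r) r) ∧ leastN r ≤ 2 * r ∧
      2 * (r : ℝ) - 1620 * Real.log (2 * r + 1) < leastN r) := by
  refine ⟨fun n hn r hr => not_centerCovered hn hr, fun n hn r hr => surj_of_le hn hr,
    fun r hr => ?_⟩
  have hmem : 2 * r ∈ {n : ℕ | 1 ≤ n ∧ ¬ Surj n (r : ℝ)} := by
    refine ⟨by omega, not_surj (by omega) ?_⟩
    push_cast
    linarith
  have h1 : 1 ≤ leastN (r : ℝ) ∧ ¬ Surj (leastN (r : ℝ)) (r : ℝ) := Nat.sInf_mem ⟨_, hmem⟩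
  have h2 : leastN (r : ℝ) ≤ 2 * r := Nat.sInf_le hmem
  refine ⟨h1, h2, ?_⟩
  by_contra hcon
  push Not at hcon
  apply h1.2
  apply surj_of_le h1.1
  have h3 : (leastN (r : ℝ) : ℝ) ≤ 2 * r := by exact_mod_cast h2
  have h4 : Real.log ((leastN (r : ℝ) : ℝ) + 1) ≤ Real.log (2 * r + 1) := by
    apply Real.log_le_log (by positivity)
    linarith
  linarith

end Pool.Agent.Results.MP_678251_co.LogWindow
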